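import Pool.Agent.H62.ExcBound
import Pool.Agent.H62.ExcGal

set_option autoImplicit false

/-!
# Class group torsion in fields with an exceptional resolvent
-/

namespace Pool.Agent.Results.MP_695920_nt.ExceptionalFields

open NumberField Pool.Agent.H62.Exc

/-- `M` is normal over `ℚ`, `K` is contained in a normal field `L ⊇ M`, and some automorphism of
`L` which is the identity on `K` commutes with no automorphism of `L / M` except the identity. -/
def FixedPointFree (M : Type) [Field M] [NumberField M] (K : Type) [Field K] [NumberField K] :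
    Prop :=
  IsGalois ℚ M ∧ ∃ (L : Type) (_ : Field L) (_ : NumberField L) (i : M →+* L) (j : K →+* L)
    (h : L ≃ₐ[ℚ] L), IsGalois ℚ L ∧ (∀ y : K, h (j y) = j y) ∧
    ∀ ν : L ≃ₐ[ℚ] L, (∀ x : M, ν (i x) = i x) → (∀ z : L, h (ν z) = ν (h z)) → ν = 1

/-- `M` is normal over `ℚ`, `K` has prime degree and is not normal over `ℚ`, and a compositum of
`K` and `M` is normal over `ℚ`. -/
def PrimeDegree (M : Type) [Field M] [NumberField M] (K : Type) [Field K] [NumberField K] :
    Prop :=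
  IsGalois ℚ M ∧ (Module.finrank ℚ K).Prime ∧ ¬ IsGalois ℚ K ∧
    ∃ (L : Type) (_ : Field L) (_ : NumberField L) (i : M →+* L) (j : K →+* L),
      IsGalois ℚ L ∧ i.fieldRange ⊔ j.fieldRange = ⊤

/-- `M` is normal over `ℚ` and has an automorphism `σ`, such that in some normal field `L ⊇ M` every
automorphism that restricts to `σ` on `M` is the identity on some conjugate of `K`. -/
def ExceptionalOver (M : Type) [Field M] [NumberField M] (K : Type) [Field K] [NumberField K] :
    Prop :=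
  IsGalois ℚ M ∧ ∃ σ : M ≃ₐ[ℚ] M, ∃ (L : Type) (_ : Field L) (_ : NumberField L) (i : M →+* L),
    IsGalois ℚ L ∧ ∀ τ : L ≃ₐ[ℚ] L, (∀ x : M, τ (i x) = i (σ x)) →
      ∃ φ : K →+* L, ∀ y : K, τ (φ y) = φ y

theorem exceptionalOver_of (M : Type) [Field M] [NumberField M] (K : Type) [Field K] [NumberField K]
    (h : FixedPointFree M K ∨ PrimeDegree M K) : ExceptionalOver M K := by
  rcases h with h | h
  · obtain ⟨hM, L, _, _, i, j, h, hL, hj, hc⟩ := h
    refine ⟨hM, ?_⟩
    let _ : Algebra M L := i.toAlgebra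
    have hsc : IsScalarTower ℚ M L := IsScalarTower.of_algebraMap_eq' (Subsingleton.elim _ _)
    refine ⟨AlgEquiv.restrictNormalHom (F := ℚ) (K₁ := L) M h, ?_⟩
    exact exceptional_of_comm L i j h _
      (fun x => (AlgEquiv.restrictNormal_commutes h M x).symm) hj hc
  · obtain ⟨hM, hp, hng, L, _, _, i, j, hL, htop⟩ := h
    obtain ⟨σ, hσ⟩ := exceptional_prime hp rfl hng L i j htop
    exact ⟨hM, σ, hσ⟩

/-- **Torsion in the class groups of fields with an exceptional resolvent.** -/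
theorem result (M : Type) [Field M] [NumberField M] (n : ℕ) (hn : 2 ≤ n) (ε : ℝ) (hε : 0 < ε) :
    ∃ C : ℝ, 0 < C ∧ ∀ (K : Type) [Field K] [NumberField K], Module.finrank ℚ K = n →
      (ExceptionalOver M K ∨ FixedPointFree M K ∨ PrimeDegree M K) →
      ∀ l : ℕ, 1 ≤ l → (Nat.card {c : ClassGroup (𝓞 K) // c ^ l = 1} : ℝ) ≤
        C * |(discr K : ℝ)| ^ (1 / 2 - 1 / (2 * l * (n - 1)) + ε : ℝ) := by
  suffices h : ∃ C : ℝ, 0 < C ∧ ∀ (K : Type) [Field K] [NumberField K], Module.finrank ℚ K = n →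
      ExceptionalOver M K → ∀ l : ℕ, 1 ≤ l →
      (Nat.card {c : ClassGroup (𝓞 K) // c ^ l = 1} : ℝ) ≤
        C * |(discr K : ℝ)| ^ (1 / 2 - 1 / (2 * l * (n - 1)) + ε : ℝ) by
    obtain ⟨C, hC0, hC⟩ := h
    refine ⟨C, hC0, fun K _ _ hK hE => hC K hK ?_⟩
    rcases hE with hE | hE
    · exact hE
    · exact exceptionalOver_of M K hE
  by_cases hM : IsGalois ℚ M
  · choose C hC0 hC using fun σ : M ≃ₐ[ℚ] M => exc_bound M σ n hn ε hε
    refine ⟨∑ σ, C σ, Finset.sum_pos (fun σ _ => hC0 σ) Finset.univ_nonempty, ?_⟩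
    rintro K _ _ hK ⟨-, σ, hσ⟩ l hl
    refine (hC σ K hK hσ l hl).trans ?_
    refine mul_le_mul_of_nonneg_right ?_ (by positivity)
    exact Finset.single_le_sum (f := C) (fun σ _ => (hC0 σ).le) (Finset.mem_univ σ)
  · exact ⟨1, one_pos, fun K _ _ _ hK => absurd hK.1 hM⟩

end Pool.Agent.Results.MP_695920_nt.ExceptionalFields
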