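import Pool.Agent.H62.GX.Fin

set_option autoImplicit false

/-!
# Class group torsion in Galois fields whose Galois group satisfies a condition on its centre
-/

namespace Pool.Agent.Results.MP_695920_nt.GaloisFields

open NumberField Pool.Agent.H62.GX Pool.Agent.Q122.TF

/-- For every automorphism `z` of prime order in the centre of the automorphism group of `L`, the
automorphisms `g` such that `z` is a power of `g` do not generate the whole group.  (The condition is
empty if the centre is trivial.) -/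
def CentreCondition (L : Type) [Field L] [NumberField L] : Prop :=
  ∀ z ∈ Subgroup.center (L ≃ₐ[ℚ] L), (orderOf z).Prime →
    Subgroup.closure {g : L ≃ₐ[ℚ] L | z ∈ Subgroup.zpowers g} ≠ ⊤

theorem result (n l : ℕ) (hn : 2 ≤ n) (hl : 1 ≤ l) :
    ∃ δ : ℝ, 0 < δ ∧ ∃ C : ℝ, 0 < C ∧
      ∀ (K L : Type) [Field K] [NumberField K] [Field L] [NumberField L] [Algebra L K],
        Module.finrank ℚ K = n → IsGalois ℚ L → CentreCondition L →
        (Nat.card {c : ClassGroup (𝓞 K) // c ^ l = 1} : ℝ) ≤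
          C * |(discr K : ℝ)| ^ (1 / 2 : ℝ) * Real.log |(discr K : ℝ)| ^ n *
            |(discr L : ℝ)| ^ (-δ) := by
  obtain ⟨δ, hδ, D0, hD0, hcore⟩ := core n l hn hl
  obtain ⟨C, hC, hW⟩ := W_le n hn
  have hnr : (2 : ℝ) ≤ n := by exact_mod_cast hn
  refine ⟨δ, hδ, 4 * n * C * D0 ^ δ, by positivity, ?_⟩
  intro K L _ _ _ _ _ hK hL hcc
  obtain ⟨N, hN, hWN⟩ := hW K hK
  rw [Real.sqrt_eq_rpow] at hWN
  have hDL1 : 1 ≤ |(discr L : ℝ)| := by
    have := Int.one_le_abs (discr_ne_zero L)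
    exact_mod_cast this
  have hDK3 : (3 : ℝ) ≤ |(discr K : ℝ)| := by
    have := abs_discr_gt_two (K := K) (by rw [hK]; omega)
    have h3 : 3 ≤ |discr K| := by omega
    exact_mod_cast h3
  have hlog : 0 < Real.log |(discr K : ℝ)| := Real.log_pos (by linarith)
  have hDδ : 1 ≤ D0 ^ δ := Real.one_le_rpow hD0 hδ.le
  obtain ⟨T, hT⟩ : ∃ T : ℝ, T = (Nat.card {c : ClassGroup (𝓞 K) // c ^ l = 1} : ℝ) := ⟨_, rfl⟩
  obtain ⟨B, hB⟩ : ∃ B : ℝ, B = C * |(discr K : ℝ)| ^ (1 / 2 : ℝ) *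
    Real.log |(discr K : ℝ)| ^ n := ⟨_, rfl⟩
  rw [← hB] at hWN
  have hB0 : 0 < B := by rw [hB]; positivity
  have hLpos : 0 < |(discr L : ℝ)| := by linarith
  have hgoal : T * |(discr L : ℝ)| ^ δ ≤ 4 * n * D0 ^ δ * B := by
    rcases le_total D0 |(discr L : ℝ)| with h | h
    · have h1 := hcore L K hK hcc h N hN
      rw [← hT] at h1
      refine h1.trans ?_
      calc 4 * n * WW K n N ≤ 4 * n * B := by gcongr
        _ = 4 * n * 1 * B := by ring
        _ ≤ 4 * n * D0 ^ δ * B := by gcongr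
    · have h1 := tor_trivial hK N l hN
      rw [← hT] at h1
      have h2 : |(discr L : ℝ)| ^ δ ≤ D0 ^ δ := Real.rpow_le_rpow hLpos.le h hδ.le
      calc T * |(discr L : ℝ)| ^ δ ≤ B * D0 ^ δ := by
            apply mul_le_mul (h1.trans hWN) h2 (by positivity) hB0.le
        _ = 1 * D0 ^ δ * B := by ring
        _ ≤ 4 * n * D0 ^ δ * B := by
            gcongr
            linarith
  rw [← hT]
  have hpow : |(discr L : ℝ)| ^ (-δ) = (|(discr L : ℝ)| ^ δ)⁻¹ := Real.rpow_neg hLpos.le δ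
  rw [hpow, ← div_eq_mul_inv, le_div_iff₀ (by positivity)]
  refine hgoal.trans (le_of_eq ?_)
  rw [hB]
  ring

end Pool.Agent.Results.MP_695920_nt.GaloisFields
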